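import Pool.Agent.Q265.LK.AA
import Pool.Agent.Q14.LK.EE
import Pool.Agent.Q277.LK.Bas
import Pool.Agent.Q7.LS.Stm

/-!
Project LS (helper7), jobs AAN, EEN: the number of the classes with the local conditions.
Adapted from `Pool/Agent/Q265/LK/AA.lean` and `Pool/Agent/Q14/LK/EE.lean`.
-/

set_option autoImplicit false

namespace Pool.Agent.Q176.LS

open NumberField IsDedekindDomain Filter Topology Finset
open Pool.Agent.Q283.LQ (Sm Box Nest nS)
open Pool.Agent.Q7.LK Pool.Agent.Q7.LS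

theorem aan1 (hB : S_BAS) : S_AAN := by
  classical
  intro p _ F _ _ y D0 A c hL hfin B hBc hBn
  obtain ⟨S, hS⟩ : ∃ S, S = hfin.toFinset := ⟨_, rfl⟩
  have hmS : ∀ v, v ∈ S ↔ Sm y v := fun v => by
    rw [hS, Set.Finite.mem_toFinset]
    rfl
  have hcardS : nS F y = S.card := by
    rw [hS]
    unfold nS
    exact Nat.card_eq_card_finite_toFinset hfin
  have hsumc : ∑ᶠ v, c v = ∑ v ∈ S, c v := by
    refine finsum_eq_sum_of_support_subset c ?_
    intro v hv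
    by_contra h
    exact hv (hL.zero v fun h' => h ((hmS v).2 h'))
  have key := Pool.Agent.Q151.LQ.card_le_prod (fun (v : HeightOneSpectrum (𝓞 F)) (b b' : F) => Lpw p v (b / b'))
    (fun v => p ^ (c v + 1)) S B ?_ ?_ ?_ ?_ ?_
  · refine key.trans (le_of_eq ?_)
    rw [Finset.prod_pow_eq_pow_sum, Finset.sum_add_distrib, Finset.sum_const, smul_eq_mul, mul_one,
      hcardS, hsumc, add_comm]
  · intro v _ b hb
    exact Pool.Agent.Q265.LK.lpw_div_self hB v (hBc b hb).1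
  · intro v _ b hb b' hb' h
    exact Pool.Agent.Q265.LK.lpw_div_symm hB h
  · intro v _ b hb b' hb' b'' hb'' h h'
    exact Pool.Agent.Q265.LK.lpw_div_trans hB (hBc b' hb').1 h h'
  · intro v hi T hTB hT
    have hv : Sm y v := (hmS v).1 hi
    exact hL.num v hv T (fun b hb => (hBc b (hTB hb)).2 v hv) hT
  · intro b hb b' hb' hne
    by_contra hno
    push Not at hno
    exact hBn b hb b' hb' hne ⟨div_ne_zero (hBc b hb).1 (hBc b' hb').1, fun v hv => hno v ((hmS v).2 hv)⟩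

theorem een1 (hB : S_BAS) : S_AAN → S_EEN := by
  classical
  intro hAA p _ F _ _ ζ hζ y f u r π g B hf hfin D0 A c hD0 hL
  have hp : p.Prime := Fact.out
  obtain ⟨E, hE⟩ : ∃ E : Finset ((Fin f → ZMod p) × (Fin f → ZMod p)), ∀ x, x ∈ E ↔
      ∃ a : F, (a ≠ 0 ∧ ∀ v, Sm y v → A v a) ∧ Nn p y (a * mon r x.1 * mon u x.2) :=
    ⟨Finset.univ.filter fun x => ∃ a : F, (a ≠ 0 ∧ ∀ v, Sm y v → A v a) ∧ Nn p y (a * mon r x.1 * mon u x.2),
      fun x => by rw [Finset.mem_filter]; exact ⟨fun h => h.2, fun h => ⟨Finset.mem_univ x, h⟩⟩⟩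
  refine ⟨E, fun a x ha ha' hx => (hE x).2 ⟨a, ⟨ha, ha'⟩, hx⟩, ?_⟩
  have hch : ∀ x : (Fin f → ZMod p) × (Fin f → ZMod p), ∃ a : F, x ∈ E →
      (a ≠ 0 ∧ ∀ v, Sm y v → A v a) ∧ Nn p y (a * mon r x.1 * mon u x.2) := by
    intro x
    by_cases hx : x ∈ E
    · obtain ⟨a, ha⟩ := (hE x).1 hx
      exact ⟨a, fun _ => ha⟩
    · exact ⟨0, fun h => absurd h hx⟩
  choose a ha using hch
  have hkey : ∀ x ∈ E, ∀ x' ∈ E, Nn p y (a x / a x') → x = x' := by
    intro x hx x' hx' h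
    have h1 := Pool.Agent.Q14.LK.nn_div hB (ha x hx).2 h
    have hax := (ha x hx).1.1
    have hax' := (ha x' hx').1.1
    have h2 : a x * mon r x.1 * mon u x.2 / (a x / a x') = a x' * mon r x.1 * mon u x.2 := by
      field_simp
    rw [h2] at h1
    obtain ⟨z, _, hz⟩ := B.cls (a x') hax'
    exact (hz x h1).trans (hz x' (ha x' hx').2).symm
  have hinj : ∀ x ∈ E, ∀ x' ∈ E, a x = a x' → x = x' := by
    intro x hx x' hx' h
    refine hkey x hx x' hx' ?_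
    rw [← h, div_self (ha x hx).1.1]
    exact Pool.Agent.Q14.LK.nn_one hB y
  have hcard : (E.image a).card = E.card := Finset.card_image_of_injOn fun x hx x' hx' h =>
    hinj x hx x' hx' h
  have h1 := hAA p F y D0 A c hL hfin (E.image a) (fun b hb => by
    obtain ⟨x, hx, rfl⟩ := Finset.mem_image.1 hb
    exact (ha x hx).1) (fun b hb b' hb' hne h => by
    obtain ⟨x, hx, rfl⟩ := Finset.mem_image.1 hb
    obtain ⟨x', hx', rfl⟩ := Finset.mem_image.1 hb'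
    exact hne (by rw [hkey x hx x' hx' h]))
  rw [hcard] at h1
  obtain ⟨C, hC⟩ : ∃ C, C = ∑ᶠ v, c v := ⟨_, rfl⟩
  rw [← hC] at h1 ⊢
  obtain ⟨R, hR⟩ : ∃ R, R = InfinitePlace.nrComplexPlaces F := ⟨_, rfl⟩
  rw [← hR] at hf ⊢
  have hp1 : (1 : ℝ) ≤ p := by exact_mod_cast hp.one_le
  have hp0 : (0 : ℝ) < p := by linarith
  have h4 : (E.card : ℝ) ≤ (p : ℝ) ^ (nS F y + C) := by exact_mod_cast h1
  have h5 : (p : ℝ) ^ (nS F y + C) * (p : ℝ) ^ R ≤ (p : ℝ) ^ C * (p : ℝ) ^ f := by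
    rw [← pow_add, ← pow_add]
    exact pow_le_pow_right₀ hp1 (by omega)
  have h6 : (0 : ℝ) < (p : ℝ) ^ f := by positivity
  have h7 : (0 : ℝ) < (p : ℝ) ^ R := by positivity
  rw [one_div, inv_pow, div_le_iff₀ h6]
  have h8 : (p : ℝ) ^ C * ((p : ℝ) ^ R)⁻¹ * (p : ℝ) ^ f = ((p : ℝ) ^ C * (p : ℝ) ^ f) / (p : ℝ) ^ R := by
    rw [div_eq_mul_inv]
    ring
  rw [h8, le_div_iff₀ h7]
  exact (mul_le_mul_of_nonneg_right h4 h7.le).trans h5

/-- Job AAN. -/
theorem aan : S_AAN := aan1 Pool.Agent.Q277.LK.bas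

/-- Job EEN. -/
theorem een : S_AAN → S_EEN := een1 Pool.Agent.Q277.LK.bas

end Pool.Agent.Q176.LS
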