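import Pool.Agent.Q224.LK.CR1BM
import Pool.Agent.Q193.LK.Lam
import Pool.Agent.Q7.LS.Stm

/-!
Project LS (helper7), job CR1S: several `S`-units of relative norm `1` from several relations.
Adapted from `Pool/Agent/Q224/LK/CR1.lean`, `CR1BM.lean`.
-/

set_option autoImplicit false

namespace Pool.Agent.Q176.LS

open NumberField IsDedekindDomain Filter Topology Finset
open Pool.Agent.Q7.LK Pool.Agent.Q7.LS
open Pool.Agent.Q224.LK (ev ev_add ev_smul ev_neg ev_sub ev_sum ev_vec ev_map ev_inj dvd_int near_dvd exists_rep gI gI_coe gI_mem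
  exists_quot norm_eq norm_conj)

section near

variable {F : Type} [Field F] [NumberField F] {L : Type} [Field L] [NumberField L] [Algebra F L]

/-- the units at `T` which are close to `1` at `T` -/
def UT (p : ℕ) (T : Set (HeightOneSpectrum (𝓞 F))) (N : ℕ) : Subgroup Lˣ where
  carrier := {x | (∀ v ∈ T, Un v (x : L)) ∧ Nr p T N (x : L)}
  one_mem' := by
    refine ⟨fun v _ P _ => by simp, fun v _ P _ => ?_⟩
    rw [Units.val_one, sub_self, map_zero]
    exact zero_le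
  mul_mem' := by
    rintro x y ⟨hx1, hx2⟩ ⟨hy1, hy2⟩
    refine ⟨fun v hv P hP => ?_, fun v hv P hP => ?_⟩
    · rw [Units.val_mul, map_mul, hx1 v hv P hP, hy1 v hv P hP, one_mul]
    · have e : ((x * y : Lˣ) : L) - 1 = ((x : L) - 1) * y + ((y : L) - 1) := by
        rw [Units.val_mul]
        ring
      rw [e]
      refine (Valuation.map_add _ _ _).trans (max_le ?_ (hy2 v hv P hP))
      rw [map_mul, hy1 v hv P hP, mul_one]
      exact hx2 v hv P hP
  inv_mem' := by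
    rintro x ⟨hx1, hx2⟩
    refine ⟨fun v hv P hP => ?_, fun v hv P hP => ?_⟩
    · rw [Units.val_inv_eq_inv_val, map_inv₀, hx1 v hv P hP, inv_one]
    · have e : ((x⁻¹ : Lˣ) : L) - 1 = -(((x : L) - 1) * ((x⁻¹ : Lˣ) : L)) := by
        have h : (x : L) * ((x⁻¹ : Lˣ) : L) = 1 := Units.mul_inv x
        linear_combination h
      have h2 : P.valuation L ((x⁻¹ : Lˣ) : L) = 1 := by
        rw [Units.val_inv_eq_inv_val, map_inv₀, hx1 v hv P hP, inv_one]
      rw [e, Valuation.map_neg, map_mul, h2, mul_one]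
      exact hx2 v hv P hP

variable {p : ℕ} {T : Set (HeightOneSpectrum (𝓞 F))} {n : ℕ}

theorem ev_un {θ : Fin n → Lˣ} (hU : ∀ i, ∀ v ∈ T, Un v (θ i : L)) (m : Fin n → ℤ) :
    ∀ v ∈ T, Un v ((ev θ m : Lˣ) : L) := by
  have h1 : ∀ i, θ i ∈ UT (L := L) 0 T 0 := by
    intro i
    refine ⟨hU i, fun v hv P hP => ?_⟩
    rw [pow_zero, map_one]
    refine (Valuation.map_sub _ _ _).trans (max_le ?_ ?_)
    · exact (hU i v hv P hP).le
    · rw [map_one]
  have h2 : ev θ m ∈ UT (L := L) 0 T 0 := Subgroup.prod_mem _ fun i _ => Subgroup.zpow_mem _ (h1 i) _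
  exact h2.1

variable [hp : Fact p.Prime]

theorem relT_zero (ε : Fin n → Lˣ) : RelT p T ε 0 := by
  refine ⟨fun _ _ => 0, fun i => ?_, fun N => ?_⟩
  · simp
  · refine Filter.Eventually.of_forall fun k => ?_
    have h : (1 : Lˣ) ∈ UT (L := L) p T N := Subgroup.one_mem _
    simpa using h.2

theorem relT_add {ε : Fin n → Lˣ} (hU : ∀ i, ∀ v ∈ T, Un v (ε i : L)) {a b : Fin n → ℤ_[p]} (ha : RelT p T ε a)
    (hb : RelT p T ε b) : RelT p T ε (a + b) := by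
  obtain ⟨m, hm1, hm2⟩ := ha
  obtain ⟨m', hm1', hm2'⟩ := hb
  refine ⟨fun k => m k + m' k, fun i => ?_, fun N => ?_⟩
  · have := (hm1 i).add (hm1' i)
    simpa using this
  · filter_upwards [hm2 N, hm2' N] with k h1 h2
    have h3 : ev ε (m k) * ev ε (m' k) ∈ UT (L := L) p T N :=
      (UT (L := L) p T N).mul_mem ⟨ev_un hU _, h1⟩ ⟨ev_un hU _, h2⟩
    rw [← ev_add] at h3
    exact h3.2

theorem relT_smul {ε : Fin n → Lˣ} (hU : ∀ i, ∀ v ∈ T, Un v (ε i : L)) {a : Fin n → ℤ_[p]} (ha : RelT p T ε a)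
    (x : ℤ_[p]) : RelT p T ε (x • a) := by
  obtain ⟨m, hm1, hm2⟩ := ha
  obtain ⟨y, hy⟩ : ∃ y : ℕ → ℤ, Tendsto (fun k => ((y k : ℤ) : ℤ_[p])) atTop (𝓝 x) := by
    have hd : DenseRange (Int.cast : ℤ → ℤ_[p]) := PadicInt.denseRange_intCast
    obtain ⟨f, hf, hf2⟩ := mem_closure_iff_seq_limit.1 (hd x)
    choose y hy using hf
    refine ⟨y, ?_⟩
    have e : (fun k => ((y k : ℤ) : ℤ_[p])) = f := funext hy
    rw [e]
    exact hf2
  refine ⟨fun k => y k • m k, fun i => ?_, fun N => ?_⟩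
  · have := hy.mul (hm1 i)
    simpa using this
  · filter_upwards [hm2 N] with k h1
    have h3 : (ev ε (m k)) ^ (y k) ∈ UT (L := L) p T N :=
      (UT (L := L) p T N).zpow_mem ⟨ev_un hU _, h1⟩ _
    rw [← ev_smul] at h3
    exact h3.2

/-- the saturation of the module of the relations -/
def RelST (p : ℕ) [Fact p.Prime] (T : Set (HeightOneSpectrum (𝓞 F))) (ε : Fin n → Lˣ)
    (hU : ∀ i, ∀ v ∈ T, Un v (ε i : L)) : Submodule ℤ_[p] (Fin n → ℤ_[p]) where
  carrier := {a | ∃ c : ℕ, c ≠ 0 ∧ RelT p T ε ((c : ℤ_[p]) • a)}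
  add_mem' := by
    rintro a b ⟨c, hc, ha⟩ ⟨c', hc', hb⟩
    refine ⟨c * c', mul_ne_zero hc hc', ?_⟩
    have e : ((c * c' : ℕ) : ℤ_[p]) • (a + b) = (c' : ℤ_[p]) • ((c : ℤ_[p]) • a) + (c : ℤ_[p]) • ((c' : ℤ_[p]) • b) := by
      rw [smul_add, smul_smul, smul_smul, Nat.cast_mul, mul_comm (c' : ℤ_[p])]
    rw [e]
    exact relT_add hU (relT_smul hU ha _) (relT_smul hU hb _)
  zero_mem' := ⟨1, one_ne_zero, by rw [smul_zero]; exact relT_zero ε⟩
  smul_mem' := by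
    rintro x a ⟨c, hc, ha⟩
    refine ⟨c, hc, ?_⟩
    rw [smul_comm]
    exact relT_smul hU ha x

/-- relations of powers -/
theorem relT_pow {θ θ' : Fin n → Lˣ} (hU : ∀ i, ∀ v ∈ T, Un v (θ' i : L)) {h : ℕ} {A : Matrix (Fin n) (Fin n) ℤ}
    (hA : ∀ i, θ' i ^ h = ev θ (A i) ^ h) {x : Fin n → ℤ_[p]} (hx : RelT p T θ' x) :
    RelT p T θ ((h : ℤ_[p]) • Matrix.vecMul x (A.map (Int.cast : ℤ → ℤ_[p]))) := by
  obtain ⟨m, hm1, hm2⟩ := hx
  refine ⟨fun k => (h : ℤ) • Matrix.vecMul (m k) A, fun j => ?_, fun N => ?_⟩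
  · have h1 : ∀ i, Tendsto (fun k => ((m k i : ℤ) : ℤ_[p]) * ((A i j : ℤ) : ℤ_[p])) atTop
        (𝓝 (x i * ((A i j : ℤ) : ℤ_[p]))) := fun i => (hm1 i).mul_const _
    have h2 := tendsto_finsetSum univ fun i _ => h1 i
    have h3 := h2.const_mul (h : ℤ_[p])
    have e1 : (fun k => ((((h : ℤ) • Matrix.vecMul (m k) A) j : ℤ) : ℤ_[p])) =
        fun k => (h : ℤ_[p]) * ∑ i, ((m k i : ℤ) : ℤ_[p]) * ((A i j : ℤ) : ℤ_[p]) := by
      funext k
      rw [Pi.smul_apply, smul_eq_mul]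
      push_cast
      congr 1
      show ((∑ i, m k i * A i j : ℤ) : ℤ_[p]) = _
      push_cast
      rfl
    rw [e1]
    exact h3
  · filter_upwards [hm2 N] with k h1
    have h3 : (ev θ' (m k)) ^ h ∈ UT (L := L) p T N :=
      (UT (L := L) p T N).pow_mem ⟨ev_un hU _, h1⟩ _
    have h4 : (ev θ' (m k)) ^ h = ev θ ((h : ℤ) • Matrix.vecMul (m k) A) := by
      rw [ev_smul, ← ev_vec, zpow_natCast]
      unfold ev
      rw [← Finset.prod_pow, ← Finset.prod_pow]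
      refine Finset.prod_congr rfl fun i _ => ?_
      have := hA i
      unfold ev at this
      rw [← zpow_natCast (θ' i ^ m k i), ← zpow_natCast (_ ^ m k i), zpow_comm, zpow_comm _ (m k i), zpow_natCast,
        zpow_natCast, this]
    rw [h4] at h3
    exact h3.2

/-- a relation `p^M x` with `x ≡ W` modulo `p` gives units close to `1` -/
theorem near_torsT {θ : Fin n → Lˣ} {M : ℕ} {x Y : Fin n → ℤ_[p]} {W : Fin n → ℤ}
    (hrel : RelT p T θ ((p : ℤ_[p]) ^ M • x)) (hY : ∀ i, x i - (W i : ℤ_[p]) = p * Y i) (N : ℕ) :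
    ∃ n' : Fin n → ℤ, Nr p T N ((((ev θ W * ev θ n' ^ p) ^ p ^ M : Lˣ)) : L) := by
  obtain ⟨m, hm1, hm2⟩ := hrel
  have hev : ∀ᶠ k in atTop, ∀ i, ‖((m k i : ℤ) : ℤ_[p]) - ((p : ℤ_[p]) ^ M • x) i‖ < (p : ℝ) ^ (-(M : ℤ)) := by
    rw [Filter.eventually_all]
    intro i
    have hp0 : (0 : ℝ) < p := by exact_mod_cast hp.out.pos
    have := (Metric.tendsto_nhds.1 (hm1 i)) ((p : ℝ) ^ (-(M : ℤ))) (by positivity)
    filter_upwards [this] with k hk
    rwa [dist_eq_norm] at hk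
  obtain ⟨k, hk1, hk2⟩ := (hev.and (hm2 N)).exists
  have hex : ∀ i, ∃ n' : ℤ, m k i = (p : ℤ) ^ M * (W i + p * n') := by
    intro i
    obtain ⟨y, hy⟩ := near_dvd (hk1 i)
    have h1 : ((m k i - (p : ℤ) ^ M * W i : ℤ) : ℤ_[p]) = (p : ℤ_[p]) ^ (M + 1) * (y + Y i) := by
      rw [Pi.smul_apply, smul_eq_mul] at hy
      have h2 : x i = W i + p * Y i := by linear_combination hY i
      rw [h2] at hy
      push_cast
      linear_combination hy
    obtain ⟨n', hn'⟩ := dvd_int (m := M + 1) ⟨_, h1⟩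
    refine ⟨n', ?_⟩
    have : m k i = (p : ℤ) ^ M * W i + (p : ℤ) ^ (M + 1) * n' := by
      linear_combination hn'
    rw [this]
    ring
  choose n' hn' using hex
  refine ⟨n', ?_⟩
  have e : (ev θ W * ev θ n' ^ p) ^ p ^ M = ev θ (m k) := by
    have h1 : m k = ((p ^ M : ℕ) : ℤ) • (W + (p : ℤ) • n') := by
      funext i
      rw [hn' i]
      simp
    rw [h1, ev_smul, ev_add, ev_smul, zpow_natCast, zpow_natCast]
  rw [e]
  exact hk2

/-- a common denominator for finitely many elements of the saturation -/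
theorem common_denT {t : ℕ} {θ : Fin n → Lˣ} (hU : ∀ i, ∀ v ∈ T, Un v (θ i : L)) {x : Fin t → Fin n → ℤ_[p]}
    (hx : ∀ i, x i ∈ RelST p T θ hU) :
    ∃ M : ℕ, ∀ c : Fin t → ℤ, RelT p T θ ((p : ℤ_[p]) ^ M • ∑ i, (c i : ℤ_[p]) • x i) := by
  choose D hD hR using hx
  have hD0 : ((∏ i, D i : ℕ) : ℤ_[p]) ≠ 0 := by
    have : (∏ i, D i : ℕ) ≠ 0 := Finset.prod_ne_zero_iff.2 fun i _ => hD i
    exact_mod_cast this
  refine ⟨((∏ i, D i : ℕ) : ℤ_[p]).valuation, fun c => ?_⟩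
  have h0 : ∀ i, RelT p T θ (((∏ i, D i : ℕ) : ℤ_[p]) • x i) := by
    intro i
    have h1 : ((∏ i, D i : ℕ) : ℤ_[p]) • x i = ((∏ j ∈ univ.erase i, D j : ℕ) : ℤ_[p]) • ((D i : ℤ_[p]) • x i) := by
      rw [smul_smul, ← Nat.cast_mul, Finset.prod_erase_mul _ _ (mem_univ i)]
    rw [h1]
    exact relT_smul hU (hR i) _
  have h1 := PadicInt.unitCoeff_spec hD0
  have h2 : (p : ℤ_[p]) ^ ((∏ i, D i : ℕ) : ℤ_[p]).valuation • ∑ i, (c i : ℤ_[p]) • x i =
      ∑ i, ((((PadicInt.unitCoeff hD0)⁻¹ : ℤ_[p]ˣ) : ℤ_[p]) * (c i : ℤ_[p])) • (((∏ i, D i : ℕ) : ℤ_[p]) • x i) := by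
    rw [Finset.smul_sum]
    refine Finset.sum_congr rfl fun i _ => ?_
    rw [smul_smul, smul_smul]
    congr 1
    have h3 : (p : ℤ_[p]) ^ ((∏ i, D i : ℕ) : ℤ_[p]).valuation =
        (((PadicInt.unitCoeff hD0)⁻¹ : ℤ_[p]ˣ) : ℤ_[p]) * ((∏ i, D i : ℕ) : ℤ_[p]) := by
      calc (p : ℤ_[p]) ^ ((∏ i, D i : ℕ) : ℤ_[p]).valuation = (((PadicInt.unitCoeff hD0)⁻¹ : ℤ_[p]ˣ) : ℤ_[p]) *
            ((PadicInt.unitCoeff hD0 : ℤ_[p]) * (p : ℤ_[p]) ^ ((∏ i, D i : ℕ) : ℤ_[p]).valuation) := by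
              rw [← mul_assoc, Units.inv_mul, one_mul]
        _ = _ := congrArg _ h1.symm
    rw [h3]
    ring
  rw [h2]
  have h4 : ∀ s : Finset (Fin t), RelT p T θ (∑ i ∈ s,
      ((((PadicInt.unitCoeff hD0)⁻¹ : ℤ_[p]ˣ) : ℤ_[p]) * (c i : ℤ_[p])) • (((∏ i, D i : ℕ) : ℤ_[p]) • x i)) := by
    intro s
    classical
    induction s using Finset.induction_on with
    | empty => rw [Finset.sum_empty]; exact relT_zero θ
    | insert a s ha ih =>
      rw [Finset.sum_insert ha]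
      exact relT_add hU (relT_smul hU (h0 a) _) ih
  exact h4 univ

end near

section conj

variable {F : Type} [Field F] [NumberField F] {L : Type} [Field L] [NumberField L] [Algebra F L]

/-- the conjugate prime -/
noncomputable def cjP (σ : L ≃ₐ[F] L) (P : HeightOneSpectrum (𝓞 L)) : HeightOneSpectrum (𝓞 L) where
  asIdeal := P.asIdeal.comap (gI σ : 𝓞 L →+* 𝓞 L)
  isPrime := Ideal.comap_isPrime _ _
  ne_bot := by
    intro h
    apply P.ne_bot
    rw [eq_bot_iff]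
    intro x hx
    obtain ⟨y, rfl⟩ := (gI σ).surjective x
    have h1 : y ∈ P.asIdeal.comap (gI σ : 𝓞 L →+* 𝓞 L) := hx
    rw [h, Ideal.mem_bot] at h1
    rw [h1, map_zero]
    exact Ideal.zero_mem _

theorem cjP_pow (σ : L ≃ₐ[F] L) (P : HeightOneSpectrum (𝓞 L)) (n : ℕ) (x : 𝓞 L) :
    x ∈ (cjP σ P).asIdeal ^ n ↔ gI σ x ∈ P.asIdeal ^ n := by
  have h1 : (cjP σ P).asIdeal = P.asIdeal.map ((gI σ : 𝓞 L ≃+* 𝓞 L).symm : 𝓞 L →+* 𝓞 L) := by
    exact (Ideal.map_symm (gI σ : 𝓞 L ≃+* 𝓞 L)).symm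
  rw [h1, ← Ideal.map_pow]
  have h2 : (P.asIdeal ^ n).map ((gI σ : 𝓞 L ≃+* 𝓞 L).symm : 𝓞 L →+* 𝓞 L) =
      (P.asIdeal ^ n).comap (gI σ : 𝓞 L ≃+* 𝓞 L) := Ideal.map_symm (gI σ : 𝓞 L ≃+* 𝓞 L)
  rw [h2]
  exact Iff.rfl

theorem cjP_int (σ : L ≃ₐ[F] L) (P : HeightOneSpectrum (𝓞 L)) (x : 𝓞 L) :
    P.intValuation (gI σ x) = (cjP σ P).intValuation x := by
  by_cases hx : x = 0
  · rw [hx, map_zero, map_zero, map_zero]
  · have hx' : gI σ x ≠ 0 := by
      intro h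
      exact hx ((gI σ).injective (by rw [h, map_zero]))
    apply le_antisymm
    · rw [(cjP σ P).intValuation_if_neg hx, P.intValuation_le_pow_iff_mem, ← cjP_pow,
        ← (cjP σ P).intValuation_le_pow_iff_mem, (cjP σ P).intValuation_if_neg hx]
    · rw [P.intValuation_if_neg hx', (cjP σ P).intValuation_le_pow_iff_mem, cjP_pow,
        ← P.intValuation_le_pow_iff_mem, P.intValuation_if_neg hx']

theorem cjP_val (σ : L ≃ₐ[F] L) (P : HeightOneSpectrum (𝓞 L)) (x : L) :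
    P.valuation L (σ x) = (cjP σ P).valuation L x := by
  obtain ⟨a, b, hb, rfl⟩ := IsFractionRing.div_surjective (A := 𝓞 L) x
  have h1 : ∀ a : 𝓞 L, P.valuation L (σ (algebraMap (𝓞 L) L a)) = (cjP σ P).valuation L (algebraMap (𝓞 L) L a) := by
    intro a
    have h2 : σ (algebraMap (𝓞 L) L a) = algebraMap (𝓞 L) L (gI σ a) := (gI_coe σ a).symm
    rw [h2, HeightOneSpectrum.valuation_of_algebraMap, HeightOneSpectrum.valuation_of_algebraMap, cjP_int]
  rw [map_div₀, map_div₀, map_div₀, h1, h1]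

theorem cjP_ab {v : HeightOneSpectrum (𝓞 F)} (σ : L ≃ₐ[F] L) {P : HeightOneSpectrum (𝓞 L)} (h : Ab v P) :
    Ab v (cjP σ P) := by
  intro x hx
  have h1 := gI_mem σ v.asIdeal 1 (x := x) (by rw [pow_one]; exact hx)
  rw [pow_one] at h1
  exact h h1

theorem un_conj {v : HeightOneSpectrum (𝓞 F)} (σ : L ≃ₐ[F] L) {x : L} (h : Un v x) : Un v (σ x) := by
  intro P hP
  rw [cjP_val]
  exact h _ (cjP_ab σ hP)

theorem nr_conj {p : ℕ} {T : Set (HeightOneSpectrum (𝓞 F))} {N : ℕ} (σ : L ≃ₐ[F] L) {x : L} (h : Nr p T N x) :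
    Nr p T N (σ x) := by
  intro v hv P hP
  have h1 : σ x - 1 = σ (x - 1) := by rw [map_sub, map_one]
  have h2 : ((p : L) ^ N) = σ ((p : L) ^ N) := by rw [map_pow, map_natCast]
  rw [h1, h2, cjP_val, cjP_val]
  exact h v hv _ (cjP_ab σ hP)

/-- the automorphism of the units -/
def gL (σ : L ≃ₐ[F] L) : Lˣ →* Lˣ := Units.map (σ : L →* L)

theorem gL_coe (σ : L ≃ₐ[F] L) (x : Lˣ) : ((gL σ x : Lˣ) : L) = σ (x : L) := rfl

theorem gL_iter (σ : L ≃ₐ[F] L) (k : ℕ) (x : Lˣ) : (((gL σ)^[k] x : Lˣ) : L) = (σ ^ k) (x : L) := by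
  induction k with
  | zero => rfl
  | succ k ih => rw [Function.iterate_succ_apply', gL_coe, ih, pow_succ', AlgEquiv.mul_apply]

/-- conjugate relations -/
theorem relT_conj {p : ℕ} [Fact p.Prime] {T : Set (HeightOneSpectrum (𝓞 F))} (σ : L ≃ₐ[F] L) {n : ℕ}
    {θ : Fin n → Lˣ} {x : Fin n → ℤ_[p]} (hx : RelT p T θ x) : RelT p T (fun i => gL σ (θ i)) x := by
  obtain ⟨m, hm1, hm2⟩ := hx
  refine ⟨m, hm1, fun N => ?_⟩
  filter_upwards [hm2 N] with k h1
  have h2 := nr_conj σ h1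
  have h3 := ev_map (gL σ) θ (m k)
  have h4 : ((ev (fun i => gL σ (θ i)) (m k) : Lˣ) : L) = σ ((ev θ (m k) : Lˣ) : L) := by
    rw [← h3]
    rfl
  show Nr p T N ((ev (fun i => gL σ (θ i)) (m k) : Lˣ) : L)
  rw [h4]
  exact h2

end conj

theorem cr1s' : S_LAM → S_CR1S := by
  intro hLAM p hp hp2 F L _ _ _ _ _ ζ d hζ hK hd T S hT hTS m t hout hmt σ hσ
  obtain ⟨n, θ, h, ⟨hh, hθN, hθind, hgen⟩, a, ha, hRel⟩ := hout
  have hUn : ∀ x : Lˣ, x ∈ NS L S → ∀ v ∈ T, Un v (x : L) := fun x hx v hv =>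
    hx.1 v (Set.disjoint_left.1 hTS hv)
  have hU : ∀ i, ∀ v ∈ T, Un v (θ i : L) := fun i => hUn _ (hθN i)
  have hnm : ∀ u : Lˣ, Algebra.norm F (u : L) = 1 ↔ u ∈ (nmU F (L := L)).ker := by
    intro u
    rw [MonoidHom.mem_ker, Units.ext_iff]
    rfl
  have hevN : ∀ m : Fin n → ℤ, ev θ m ∈ NS L S := fun m =>
    Subgroup.prod_mem _ fun i _ => Subgroup.zpow_mem _ (hθN i) _
  have hgN : ∀ u ∈ NS L S, gL σ u ∈ NS L S := by
    intro u hu
    refine ⟨fun v hv => un_conj σ (hu.1 v hv), ?_⟩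
    have h1 := (hnm u).2 hu.2
    refine (hnm _).1 ?_
    rw [gL_coe, norm_conj hK.deg hσ, h1]
  have hU' : ∀ i, ∀ v ∈ T, Un v (gL σ (θ i) : L) := fun i => hUn _ (hgN _ (hθN i))
  -- the matrix of `σ`
  choose A hA using fun i => hgen (gL σ (θ i)) (hgN _ (hθN i))
  have hA' : ∀ i, gL σ (θ i) ^ h = ev θ (A i) ^ h := hA
  have hstep : ∀ m : Fin n → ℤ, gL σ (ev θ m) ^ h = ev θ (Matrix.vecMul m (Matrix.of A)) ^ h := by
    intro m
    rw [← ev_vec, ev_map]
    unfold ev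
    rw [← Finset.prod_pow, ← Finset.prod_pow]
    refine Finset.prod_congr rfl fun i _ => ?_
    have := hA i
    rw [← zpow_natCast (gL σ (θ i) ^ m i), ← zpow_natCast (_ ^ m i), zpow_comm, zpow_comm _ (m i), zpow_natCast,
      zpow_natCast, this]
    rfl
  have hpow : ∀ (k : ℕ) (i : Fin n), ((gL σ)^[k] (θ i)) ^ h = ev θ (((Matrix.of A) ^ k) i) ^ h := by
    intro k i
    induction k with
    | zero =>
      rw [Function.iterate_zero, id, pow_zero]
      congr 1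
      unfold ev
      rw [Finset.prod_eq_single i]
      · rw [Matrix.one_apply_eq, zpow_one]
      · intro j _ hj
        rw [Matrix.one_apply_ne (Ne.symm hj), zpow_zero]
      · intro h; exact absurd (mem_univ i) h
    | succ k ih =>
      rw [Function.iterate_succ_apply', ← map_pow, ih, map_pow, hstep, pow_succ]
      rfl
  have hsum0 : ∑ k ∈ range p, (Matrix.of A) ^ k = 0 := by
    ext i j
    have h1 : ∏ k ∈ range p, (gL σ)^[k] (θ i) = 1 := by
      apply Units.ext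
      rw [Units.coe_prod, Finset.prod_congr rfl fun k _ => gL_iter σ k (θ i), ← norm_eq hK.deg hσ,
        (hnm _).2 (hθN i).2, map_one, Units.val_one]
    have h2 : ev θ (∑ k ∈ range p, ((Matrix.of A) ^ k) i) ^ h = ev θ 0 ^ h := by
      rw [ev_sum, ← Finset.prod_pow, ← Finset.prod_congr rfl fun k _ => hpow k i, Finset.prod_pow, h1]
      simp [ev]
    have h3 := ev_inj hθind hh h2
    rw [Matrix.sum_apply]
    have h4 := congrFun h3 j
    rw [Finset.sum_apply] at h4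
    exact h4
  set B : Matrix (Fin n) (Fin n) ℤ := Matrix.of A - 1 with hB
  have hsumB : ∑ i ∈ range p, (1 + B) ^ i = 0 := by
    have : (1 : Matrix (Fin n) (Fin n) ℤ) + B = Matrix.of A := by rw [hB]; abel
    rw [this, hsum0]
  -- the saturated module
  have hstab : ∀ x ∈ RelST p T θ hU, Matrix.vecMul x (B.map (Int.cast : ℤ → ℤ_[p])) ∈ RelST p T θ hU := by
    intro x hx
    have hx' := hx
    obtain ⟨c, hc, h1⟩ := hx
    have h2 := relT_pow hU' (A := Matrix.of A) hA' (relT_conj σ h1)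
    have h3 : Matrix.vecMul x ((Matrix.of A).map (Int.cast : ℤ → ℤ_[p])) ∈ RelST p T θ hU := by
      refine ⟨h * c, mul_ne_zero hh.ne' hc, ?_⟩
      rw [Matrix.smul_vecMul, smul_smul] at h2
      rw [Nat.cast_mul]
      exact h2
    have h4 : B.map (Int.cast : ℤ → ℤ_[p]) = (Matrix.of A).map (Int.cast : ℤ → ℤ_[p]) - 1 := by
      ext i j
      rw [hB]
      by_cases hij : i = j
      · subst hij; simp
      · simp [Matrix.one_apply_ne hij]
    rw [h4, Matrix.vecMul_sub, Matrix.vecMul_one]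
    exact Submodule.sub_mem _ h3 hx'
  have hsat : ∀ x : Fin n → ℤ_[p], (p : ℤ_[p]) • x ∈ RelST p T θ hU → x ∈ RelST p T θ hU := by
    rintro x ⟨c, hc, h1⟩
    refine ⟨c * p, mul_ne_zero hc hp.out.ne_zero, ?_⟩
    rw [smul_smul] at h1
    rw [Nat.cast_mul]
    exact h1
  have hmem : ∀ i, a i ∈ RelST p T θ hU := fun i =>
    ⟨1, one_ne_zero, by rw [Nat.cast_one, one_smul]; exact hRel i⟩
  obtain ⟨x, hxR, hxB⟩ := hLAM p n m t B hsumB (RelST p T θ hU) hstab hsat ⟨a, ha, hmem⟩ hmt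
  obtain ⟨Q, hQ⟩ := exists_quot hsumB
  choose W hW using fun j i => exists_rep (x j i)
  choose Y hY using hW
  -- combinations
  have hprod : ∀ c : Fin t → ℤ, ∏ j, ev θ (W j) ^ c j = ev θ (∑ j, c j • W j) := by
    intro c
    rw [ev_sum]
    exact Finset.prod_congr rfl fun j _ => (ev_smul θ (c j) (W j)).symm
  have hcY : ∀ (c : Fin t → ℤ) (i : Fin n), (∑ j, (c j : ℤ_[p]) • x j) i - (((∑ j, c j • W j) i : ℤ) : ℤ_[p]) =
      p * (∑ j, (c j : ℤ_[p]) • Y j) i := by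
    intro c i
    rw [Finset.sum_apply, Finset.sum_apply, Finset.sum_apply, Int.cast_sum, ← Finset.sum_sub_distrib, Finset.mul_sum]
    refine Finset.sum_congr rfl fun j _ => ?_
    rw [Pi.smul_apply, Pi.smul_apply, Pi.smul_apply, smul_eq_mul, smul_eq_mul, smul_eq_mul, Int.cast_mul]
    linear_combination (c j : ℤ_[p]) * hY j i
  refine ⟨fun j => ev θ (W j), fun j => hevN (W j), ?_, ?_⟩
  · -- independence
    intro c hcp η hη j heq
    rw [hprod c] at heq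
    set V : Fin n → ℤ := ∑ j, c j • W j with hV
    obtain ⟨b, hb⟩ := hgen η hη
    have hb' : η ^ h = ev θ b ^ h := hb
    have h1 : (ev θ V * η) ^ p = (gL σ η) ^ p := by
      apply Units.ext
      rw [Units.val_pow_eq_pow_val, Units.val_pow_eq_pow_val, Units.val_mul, heq, gL_coe, mul_pow, ← pow_mul,
        mul_comm j p, pow_mul, ← map_pow, hζ.pow_eq_one, map_one, one_pow, one_mul]
    have h2 : ev θ (V + b) ^ (h * p) = ev θ (Matrix.vecMul b (Matrix.of A)) ^ (h * p) := by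
      rw [pow_mul, pow_mul, ← hstep b, ev_add, mul_pow, ← hb', ← map_pow, ← hb', map_pow, ← mul_pow, ← pow_mul,
        ← pow_mul, mul_comm h p, pow_mul, pow_mul, h1]
    have h3 := ev_inj hθind (Nat.mul_pos hh hp.out.pos) h2
    apply hxB c hcp ((fun i => (b i : ℤ_[p])) +
      Matrix.vecMul (∑ j, (c j : ℤ_[p]) • Y j) (Q.map (Int.cast : ℤ → ℤ_[p])))
    have h5 : Matrix.vecMul (fun i => (b i : ℤ_[p])) (B.map (Int.cast : ℤ → ℤ_[p])) = fun i => ((V i : ℤ) : ℤ_[p]) := by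
      have h6 : Matrix.vecMul b B = V := by
        rw [hB, Matrix.vecMul_sub, Matrix.vecMul_one, ← h3]; abel
      funext i
      rw [← h6]
      show ∑ j, (b j : ℤ_[p]) * (B j i : ℤ_[p]) = ((∑ j, b j * B j i : ℤ) : ℤ_[p])
      push_cast
      rfl
    have h6 : (Q.map (Int.cast : ℤ → ℤ_[p])) * (B.map (Int.cast : ℤ → ℤ_[p])) =
        (p : Matrix (Fin n) (Fin n) ℤ_[p]) := by
      have h7 := congrArg (fun M : Matrix (Fin n) (Fin n) ℤ => M.map (Int.castRingHom ℤ_[p])) hQ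
      simp only [Matrix.map_mul] at h7
      have h8 : (p : Matrix (Fin n) (Fin n) ℤ).map (Int.castRingHom ℤ_[p]) = (p : Matrix (Fin n) (Fin n) ℤ_[p]) := by
        exact map_natCast (Int.castRingHom ℤ_[p]).mapMatrix p
      rw [h8] at h7
      exact h7
    rw [Matrix.add_vecMul, Matrix.vecMul_vecMul, h6, h5]
    funext i
    have h9 : Matrix.vecMul (∑ j, (c j : ℤ_[p]) • Y j) (p : Matrix (Fin n) (Fin n) ℤ_[p]) =
        (p : ℤ_[p]) • ∑ j, (c j : ℤ_[p]) • Y j := by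
      have : (p : Matrix (Fin n) (Fin n) ℤ_[p]) = (p : ℤ_[p]) • (1 : Matrix (Fin n) (Fin n) ℤ_[p]) := by
        rw [Matrix.smul_one_eq_diagonal]
        rfl
      rw [this, Matrix.vecMul_smul, Matrix.vecMul_one]
    rw [h9, Pi.add_apply, Pi.smul_apply, smul_eq_mul]
    linear_combination hcY c i
  · -- almost torsion
    obtain ⟨M, hM⟩ := common_denT hU hxR
    refine ⟨M, fun c N => ?_⟩
    obtain ⟨n', hn'⟩ := near_torsT (hM c) (hcY c) N
    refine ⟨ev θ n', hevN n', ?_⟩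
    rw [hprod c]
    exact hn'

/-- Job CR1S. -/
theorem cr1s : S_CR1S := cr1s' Pool.Agent.Q193.LK.lam

end Pool.Agent.Q176.LS
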